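import Mathlib
import Pool.Agent.H880.Unexp.Defs
import Pool.Agent.H880.Unexp.Main

open scoped LinearAlgebra.Projectivization
open Pool.Agent.H880.Unexp

universe u

namespace Pool.Agent.Results.MP_ddc23f_ag.NoFreeSetSharesCurve

/-- Over every algebraically closed field of characteristic zero there is a set `Z` of `21` points
of the projective plane with an irreducible unexpected curve of degree `10` with multiplicity `9`
at a general point and with non-free dual arrangement, such that the only finite set `Z'` that
shares the unexpected curve of `Z` is `Z` itself; so no such `Z'` has a free dual arrangement. -/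
theorem result (K : Type u) [Field K] [IsAlgClosed K] [CharZero K] :
    ∃ Z : Finset (ℙ K (Fin 3 → K)), Z.card = 21 ∧
      HasIrreducibleUnexpectedCurve (Z : Set (ℙ K (Fin 3 → K))) 10 9 ∧ ¬ DualFree Z ∧
      ∀ Z' : Finset (ℙ K (Fin 3 → K)),
        Shares (Z : Set (ℙ K (Fin 3 → K))) (Z' : Set (ℙ K (Fin 3 → K))) 10 9 →
          Z' = Z ∧ ¬ DualFree Z' := by
  obtain ⟨Z, h1, h2, h3, h4⟩ := Pool.Agent.H880.Unexp.main K
  refine ⟨Z, h1, h2, h3, fun Z' hZ' => ?_⟩
  have h5 := h4 Z' hZ'
  exact ⟨h5, by rw [h5]; exact h3⟩

end Pool.Agent.Results.MP_ddc23f_ag.NoFreeSetSharesCurve
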